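import Pool.Agent.Lib.EEQ.Main

/-! MP_ee476b_an, Q2: the answer is no. For every admissible `g`, every `A ≠ 0` and every `p ≤ 2`
some blow-up sequence violates `‖∇u_k‖² = 4π + A μ_k^{-p} + o(μ_k^{-p})`. -/

open Real Set MeasureTheory Filter Topology

open MPee in
/-- For every admissible `g`, every `A ≠ 0` and every `p ≤ 2` there is a blow-up sequence of
`-Δu = λ(1+h(u)) u e^{u²}` for which the energy expansion
`‖∇u_k‖² = 4π + A/μ_k^p + o(μ_k^{-p})`, `μ_k = u_k(0)`, fails. -/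
theorem Pool.Agent.Results.MP_ee476b_an.NoRateUpToTwo.result :
    ∀ g : ℝ → ℝ, Admissible g → ∀ A : ℝ, A ≠ 0 → ∀ p : ℝ, p ≤ 2 →
    ∃ (lam : ℕ → ℝ) (u : ℕ → E2 → ℝ), IsBlowUp g lam u ∧
      ¬ Tendsto (fun k => (energy (u k) - 4 * π - A / (u k 0) ^ p) * (u k 0) ^ p) atTop (𝓝 0) := by
  intro g hg A hA p hp
  exact main hg hA hp
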