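import Pool.Agent.Lib.MP_ee476b_an.Exist3

/-! MP_ee476b_an, Q1: for every `p ∈ (2,4)` and every `A ≠ 0` there is an admissible `g` such that
blow-up sequences exist and all of them have energy `4π + A μ_k^{-p} + o(μ_k^{-p})`. -/

open Real Set MeasureTheory Filter Topology

namespace MPee

theorem exists_par {p : ℝ} (hp2 : 2 < p) (hp4 : p < 4) (κ : ℝ) : ∃ K : ℝ, Par p κ K := by
  have t1 : Tendsto (fun K : ℝ => |κ| * K ^ (-(p / 2))) atTop (𝓝 (|κ| * 0)) :=
    (tendsto_rpow_neg_atTop (by linarith)).const_mul _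
  have t2 : Tendsto (fun K : ℝ => |κ| / (p - 2) * K ^ (1 - p / 2)) atTop
      (𝓝 (|κ| / (p - 2) * 0)) := by
    have : (fun K : ℝ => |κ| / (p - 2) * K ^ (1 - p / 2)) =
        fun K : ℝ => |κ| / (p - 2) * K ^ (-(p / 2 - 1)) := by
      funext K; congr 2; ring
    rw [this]
    exact (tendsto_rpow_neg_atTop (by linarith)).const_mul _
  rw [mul_zero] at t1 t2
  obtain ⟨K, h1, h2, h3⟩ := ((eventually_ge_atTop (1:ℝ)).and
    ((t1.eventually_le_const (by norm_num : (0:ℝ) < 1/50)).and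
      (t2.eventually_le_const (by norm_num : (0:ℝ) < 1/4)))).exists
  exact ⟨K, hp2, hp4, h1, h2, h3⟩

theorem expansion {p κ K : ℝ} (h : Par p κ K) (lam : ℕ → ℝ) (u : ℕ → E2 → ℝ)
    (hb : IsBlowUp (gg p κ K) lam u) :
    Tendsto (fun k => (energy (u k) - 4 * π - 2 * π * κ / (u k 0) ^ p) * (u k 0) ^ p)
      atTop (𝓝 0) := by
  obtain ⟨C1, C2, C3, hE⟩ := energy_asymp h
  have h1 := hb.lim.eventually hE
  have h2 : Tendsto (fun k => 2 * π * (err p κ K C1 C2 C3 (u k 0) * (u k 0) ^ p)) atTop (𝓝 0) := by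
    have := ((tendsto_err (κ := κ) (K := K) h.hp2 h.hp4 C1 C2 C3).comp hb.lim).const_mul (2 * π)
    simpa using this
  refine squeeze_zero_norm' ?_ h2
  filter_upwards [h1, hb.lim.eventually_gt_atTop 0] with k hk hk0
  have h3 := hk _ _ _ (toProf h (hb.sol k))
  have h4 := energy_eq h (hb.sol k)
  have h5 : 0 < (u k 0) ^ p := Real.rpow_pos_of_pos hk0 _
  have h6 : (u k 0) ^ (-p) = 1 / (u k 0) ^ p := by rw [Real.rpow_neg hk0.le, one_div]
  rw [Real.norm_eq_abs, abs_mul, abs_of_pos h5, h4]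
  have e : 2 * π * (∫ r in (0:ℝ)..1, prof (u k) r * ww (qq p κ K) (PP p κ K) (lam k) (prof (u k)) r) -
      4 * π - 2 * π * κ / (u k 0) ^ p = 2 * π *
      ((∫ r in (0:ℝ)..1, prof (u k) r * ww (qq p κ K) (PP p κ K) (lam k) (prof (u k)) r) - 2 -
        κ * (u k 0) ^ (-p)) := by
    rw [h6]; ring
  rw [e, abs_mul, abs_of_pos (by positivity : 0 < 2 * π)]
  calc 2 * π * |(∫ r in (0:ℝ)..1, prof (u k) r * ww (qq p κ K) (PP p κ K) (lam k) (prof (u k)) r) -
      2 - κ * (u k 0) ^ (-p)| * (u k 0) ^ p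
      ≤ 2 * π * err p κ K C1 C2 C3 (u k 0) * (u k 0) ^ p := by gcongr
    _ = _ := by ring

end MPee

open MPee in
/-- For all `2 < p < 4` and `A ≠ 0` there is an admissible `g` for which blow-up sequences exist
and every blow-up sequence satisfies `‖∇u_k‖² = 4π + A/μ_k^p + o(μ_k^{-p})`, `μ_k = u_k(0)`. -/
theorem Pool.Agent.Results.MP_ee476b_an.SlowExpansion.result : ∀ p : ℝ, 2 < p → p < 4 → ∀ A : ℝ, A ≠ 0 → ∃ g : ℝ → ℝ, Admissible g ∧
    (∃ lam u, IsBlowUp g lam u) ∧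
    ∀ (lam : ℕ → ℝ) (u : ℕ → E2 → ℝ), IsBlowUp g lam u →
      Tendsto (fun k => (energy (u k) - 4 * π - A / (u k 0) ^ p) * (u k 0) ^ p) atTop (𝓝 0) := by
  intro p hp2 hp4 A _
  obtain ⟨K, h⟩ := exists_par hp2 hp4 (A / (2 * π))
  refine ⟨gg p (A / (2 * π)) K, admissible_gg h, exists_blowup h, ?_⟩
  intro lam u hb
  have h1 := expansion h lam u hb
  have e : 2 * π * (A / (2 * π)) = A := by
    have := Real.pi_pos
    field_simp
  simpa only [e] using h1
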